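import Mathlib

/-! Dimension shifting along an injective coresolution: if `X (n+1)` has projective
dimension `< n+1`, then `X n` is injective, hence `X 0` has injective dimension `< n+1`. -/

open CategoryTheory CategoryTheory.Abelian

namespace Pool.Agent.Lib_helper21.GSC

universe w v u

variable {C : Type u} [Category.{v} C] [Abelian C]

theorem ext_shift [HasExt.{w} C] {S : ShortComplex C} (hS : S.ShortExact) (hJ : Injective S.X₂)
    (Y : C) (n : ℕ) (h : Subsingleton (Ext Y S.X₁ (n + 2))) :
    Subsingleton (Ext Y S.X₃ (n + 1)) := by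
  refine ⟨fun a b => ?_⟩
  have key : ∀ x : Ext Y S.X₃ (n + 1), x = 0 := by
    intro x
    obtain ⟨y, rfl⟩ := Ext.covariant_sequence_exact₃ Y hS x (rfl : (n + 1) + 1 = n + 2)
      (Subsingleton.elim _ _)
    rw [y.eq_zero_of_injective, Ext.zero_comp]
  rw [key a, key b]

/-- an injective coresolution, cut into short exact pieces. -/
structure Coresolution (X J : ℕ → C) where
  f : ∀ i, X i ⟶ J i
  g : ∀ i, J i ⟶ X (i + 1)
  w : ∀ i, f i ≫ g i = 0
  exact : ∀ i, (ShortComplex.mk (f i) (g i) (w i)).ShortExact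
  inj : ∀ i, Injective (J i)

def Coresolution.tail {X J : ℕ → C} (R : Coresolution X J) :
    Coresolution (fun i => X (i + 1)) (fun i => J (i + 1)) where
  f i := R.f (i + 1)
  g i := R.g (i + 1)
  w i := R.w (i + 1)
  exact i := R.exact (i + 1)
  inj i := R.inj (i + 1)

theorem ext_tower [HasExt.{w} C] (Y : C) (n : ℕ) : ∀ {X J : ℕ → C} (_ : Coresolution X J)
    (_ : Subsingleton (Ext Y (X 0) (n + 1))), Subsingleton (Ext Y (X n) 1) := by
  induction n with
  | zero => intro X J _ h; exact h
  | succ n ih =>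
    intro X J R h
    exact ih R.tail (ext_shift (R.exact 0) (R.inj 0) Y n h)

theorem injective_of_pd {X J : ℕ → C} (R : Coresolution X J) (n : ℕ)
    (h : HasProjectiveDimensionLT (X (n + 1)) (n + 1)) : Injective (X n) := by
  let := HasExt.standard C
  have h1 : Subsingleton (Ext (X (n + 1)) (X n) 1) :=
    ext_tower (X (n + 1)) n R (HasProjectiveDimensionLT.subsingleton _ (n + 1) (n + 1) le_rfl _)
  obtain ⟨r, hr⟩ := Ext.contravariant_sequence_exact₁ (R.exact n) (X n)
    (Ext.mk₀ (𝟙 (X n))) (rfl : 1 + 0 = 1) (Subsingleton.elim _ _)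
  obtain ⟨ρ, rfl⟩ := Ext.homEquiv₀.symm.surjective r
  have hρ : R.f n ≫ ρ = 𝟙 (X n) := Ext.homEquiv₀.symm.injective (by simpa using hr)
  have := R.inj n
  have h2 : HasInjectiveDimensionLT (X n) 1 :=
    (Retract.mk (R.f n) ρ hρ : Retract (X n) (J n)).hasInjectiveDimensionLT 1
  exact injective_iff_hasInjectiveDimensionLT_one.2 h2

theorem id_lt_of_pd {X J : ℕ → C} (R : Coresolution X J) (n : ℕ)
    (h : HasInjectiveDimensionLT (X n) 1) : HasInjectiveDimensionLT (X 0) (n + 1) := by
  induction n generalizing X J with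
  | zero => exact h
  | succ n ih => 
    have := ih R.tail h
    exact ((R.exact 0).hasInjectiveDimensionLT_X₃_iff n (R.inj 0)).1 this

/-- B7: if one cosyzygy `X (n+1)` of `X 0` has projective dimension `≤ n`, then `X 0` has
injective dimension `≤ n`. -/
theorem id_lt_of_cosyzygy {X J : ℕ → C} (R : Coresolution X J) (n : ℕ)
    (h : HasProjectiveDimensionLT (X (n + 1)) (n + 1)) : HasInjectiveDimensionLT (X 0) (n + 1) :=
  id_lt_of_pd R n (injective_iff_hasInjectiveDimensionLT_one.1 (injective_of_pd R n h))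

/-- all cosyzygies of an object of finite projective dimension have finite projective dimension,
if the injectives of the coresolution do. -/
theorem cosyzygy_pd {X J : ℕ → C} (R : Coresolution X J)
    (h0 : ∃ m, HasProjectiveDimensionLT (X 0) m)
    (hJ : ∀ i, ∃ m, HasProjectiveDimensionLT (J i) m) (i : ℕ) :
    ∃ m, HasProjectiveDimensionLT (X i) m := by
  induction i with
  | zero => exact h0
  | succ i ih =>
    obtain ⟨a, ha⟩ := ih
    obtain ⟨b, hb⟩ := hJ i
    refine ⟨max a b + 1, (R.exact i).hasProjectiveDimensionLT_X₃ (max a b)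
      (hasProjectiveDimensionLT_of_ge _ a _ (le_max_left _ _))
      (hasProjectiveDimensionLT_of_ge _ b _ (le_trans (le_max_right _ _) (Nat.le_succ _)))⟩

end Pool.Agent.Lib_helper21.GSC
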