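import Pool.Agent.Lib_helper30.GSC.Dual

/-! From a projective resolution in the sense of Mathlib to `ProjRes`. -/

open CategoryTheory

universe u

namespace Pool.Agent.GSC

section
variable {k B : Type u} [Field k] [Ring B] [Algebra k B] {M : Type u} [AddCommGroup M]
  [Module k M] [Module B M] [IsScalarTower k B M]
  (P : ℕ → Type u) [∀ i, AddCommGroup (P i)] [∀ i, Module k (P i)] [∀ i, Module B (P i)]
  [∀ i, IsScalarTower k B (P i)] (D0 : P 0 →ₗ[B] M) (D : ∀ i, P (i + 1) →ₗ[B] P i)

/-- the syzygies as submodules -/
def syzSub : (i : ℕ) → Submodule B (P i)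
  | 0 => LinearMap.ker D0
  | i + 1 => LinearMap.ker (D i)

variable {P D0 D}

theorem mem_syzSub (ex0 : Function.Exact (D 0) D0)
    (ex : ∀ i, Function.Exact (D (i + 1)) (D i)) (i : ℕ) (x : P i) :
    x ∈ syzSub P D0 D i ↔ ∃ y, D i y = x := by
  cases i with
  | zero => exact (ex0 x)
  | succ i => exact (ex i x)

/-- the syzygies -/
def syzTy (M : Type u) [AddCommGroup M] [Module B M] (P : ℕ → Type u) [∀ i, AddCommGroup (P i)]
    [∀ i, Module B (P i)] (D0 : P 0 →ₗ[B] M) (D : ∀ i, P (i + 1) →ₗ[B] P i) : ℕ → Type u
  | 0 => M
  | i + 1 => syzSub P D0 D i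

instance (i : ℕ) : AddCommGroup (syzTy M P D0 D i) :=
  match i with
  | 0 => inferInstanceAs (AddCommGroup M)
  | i + 1 => inferInstanceAs (AddCommGroup (syzSub P D0 D i))

instance (i : ℕ) : Module B (syzTy M P D0 D i) :=
  match i with
  | 0 => inferInstanceAs (Module B M)
  | i + 1 => inferInstanceAs (Module B (syzSub P D0 D i))

instance (i : ℕ) : Module k (syzTy M P D0 D i) :=
  match i with
  | 0 => inferInstanceAs (Module k M)
  | i + 1 => inferInstanceAs (Module k (syzSub P D0 D i))

instance (i : ℕ) : IsScalarTower k B (syzTy M P D0 D i) :=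
  match i with
  | 0 => inferInstanceAs (IsScalarTower k B M)
  | i + 1 => inferInstanceAs (IsScalarTower k B (syzSub P D0 D i))

/-- the covers of the syzygies -/
def syzCov (ex0 : Function.Exact (D 0) D0) (ex : ∀ i, Function.Exact (D (i + 1)) (D i)) :
    (i : ℕ) → P i →ₗ[B] syzTy M P D0 D i
  | 0 => D0
  | i + 1 => LinearMap.codRestrict (syzSub P D0 D i) (D i)
      (fun x => (mem_syzSub ex0 ex i (D i x)).2 ⟨x, rfl⟩)

/-- a resolution from an exact sequence -/
def mkProjRes (hfin : ∀ i, Module.Finite k (P i)) (hproj : ∀ i, Module.Projective B (P i))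
    (hs : Function.Surjective D0) (ex0 : Function.Exact (D 0) D0)
    (ex : ∀ i, Function.Exact (D (i + 1)) (D i)) : ProjRes k B M where
  K := syzTy M P D0 D
  P := P
  instF := hfin
  a i := (syzSub P D0 D i).subtype
  b := syzCov ex0 ex
  inj i := (syzSub P D0 D i).injective_subtype
  exact i x := by
    cases i with
    | zero =>
      constructor
      · intro h
        exact ⟨(⟨x, h⟩ : syzSub P D0 D 0), rfl⟩
      · rintro ⟨y, rfl⟩
        exact (show syzSub P D0 D 0 from y).2
    | succ i =>
      constructor
      · intro h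
        exact ⟨(⟨x, congrArg Subtype.val h⟩ : syzSub P D0 D (i + 1)), rfl⟩
      · rintro ⟨y, rfl⟩
        exact Subtype.ext (show syzSub P D0 D (i + 1) from y).2
  surj i := by
    cases i with
    | zero => exact hs
    | succ i =>
      rintro ⟨x, hx⟩
      obtain ⟨y, hy⟩ := (mem_syzSub ex0 ex i x).1 hx
      exact ⟨y, Subtype.ext hy⟩
  proj := hproj
  e := LinearEquiv.refl B M

end

section length
variable {k B : Type u} [Field k] [Ring B] [Algebra k B] [Module.Finite k B]

/-- the dimension is at most the length times the dimension of the algebra. -/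
theorem finrank_le_of_length (c : ℕ) : ∀ (X : Type u) [AddCommGroup X] [Module k X] [Module B X]
    [IsScalarTower k B X], Module.length B X ≤ c →
    Module.Finite k X ∧ Module.finrank k X ≤ Module.finrank k B * c := by
  induction c with
  | zero =>
    intro X _ _ _ _ h
    have h0 : Module.length B X = 0 := le_antisymm h bot_le
    have : Subsingleton X := Module.length_eq_zero_iff.1 h0
    exact ⟨inferInstance, by rw [Module.finrank_zero_of_subsingleton]; exact Nat.zero_le _⟩
  | succ c ih =>
    intro X _ _ _ _ h
    by_cases hX : Subsingleton X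
    · exact ⟨inferInstance, by rw [Module.finrank_zero_of_subsingleton]; exact Nat.zero_le _⟩
    · have hnt : Nontrivial X := not_subsingleton_iff_nontrivial.1 hX
      obtain ⟨x, hx⟩ := exists_ne (0 : X)
      let N : Submodule B X := Submodule.span B {x}
      have hN : Nontrivial N := by
        refine ⟨⟨⟨x, Submodule.mem_span_singleton_self x⟩, 0, fun h0 => hx ?_⟩⟩
        exact congrArg Subtype.val h0
      have hadd : Module.length B X = Module.length B N + Module.length B (X ⧸ N) :=
        Module.length_eq_add_of_exact N.subtype N.mkQ N.injective_subtype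
          N.mkQ_surjective (by
            rw [LinearMap.exact_iff, Submodule.ker_mkQ, Submodule.range_subtype])
      have hpos : 1 ≤ Module.length B N := by
        rw [Order.one_le_iff_ne_zero, Ne, Module.length_eq_zero_iff]
        exact not_subsingleton_iff_nontrivial.2 hN
      have hq : Module.length B (X ⧸ N) ≤ c := by
        rw [hadd] at h
        have h1 : Module.length B (X ⧸ N) + 1 ≤ (c : ℕ∞) + 1 := by
          calc Module.length B (X ⧸ N) + 1 ≤ Module.length B (X ⧸ N) + Module.length B N := by
                gcongr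
            _ = Module.length B N + Module.length B (X ⧸ N) := add_comm _ _
            _ ≤ ((c + 1 : ℕ) : ℕ∞) := h
            _ = (c : ℕ∞) + 1 := by push_cast; rfl
        exact (ENat.add_le_add_iff_right (by simp)).1 h1
      obtain ⟨hqf, hqd⟩ := ih (X ⧸ N) hq
      -- the cyclic submodule
      let p : B →ₗ[B] N := LinearMap.toSpanSingleton B N ⟨x, Submodule.mem_span_singleton_self x⟩
      have hp : Function.Surjective p := by
        rintro ⟨y, hy⟩
        obtain ⟨a, ha⟩ := Submodule.mem_span_singleton.1 hy
        exact ⟨a, Subtype.ext ha⟩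
      have hNf : Module.Finite k N := Module.Finite.of_surjective (p.restrictScalars k) hp
      have hNd : Module.finrank k N ≤ Module.finrank k B :=
        LinearMap.finrank_le_finrank_of_surjective (f := p.restrictScalars k) hp
      let N' : Submodule k X := N.restrictScalars k
      have eN : N' ≃ₗ[k] N := LinearEquiv.refl k N
      let eQ : (X ⧸ N') ≃ₗ[k] (X ⧸ N) := Submodule.Quotient.restrictScalarsEquiv k N
      have hNf' : Module.Finite k N' := hNf
      have hqf' : Module.Finite k (X ⧸ N') := Module.Finite.equiv eQ.symm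
      have hXf : Module.Finite k X := Module.Finite.of_submodule_quotient N'
      refine ⟨hXf, ?_⟩
      have h2 := Submodule.finrank_quotient_add_finrank N'
      have h3 : Module.finrank k (X ⧸ N') = Module.finrank k (X ⧸ N) := eQ.finrank_eq
      have h4 : Module.finrank k N' = Module.finrank k N := rfl
      rw [← h2, h3, h4, Nat.mul_succ]
      exact Nat.add_le_add hqd hNd

/-- the bridge: a projective resolution by finitely generated modules, in the sense of
Mathlib. -/
theorem exists_projRes {M : Type u} [AddCommGroup M] [Module k M] [Module B M]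
    [IsScalarTower k B M] (P : ProjectiveResolution (ModuleCat.of B M))
    (hP : ∀ i, Module.Finite B (P.complex.X i)) :
    ∃ Q : ProjRes k B M, ∀ i, Nonempty (Q.P i ≃ₗ[B] P.complex.X i) ∧
      ∀ c : ℕ, Module.length B (P.complex.X i) ≤ c →
        Module.finrank k (Q.P i) ≤ Module.finrank k B * c := by
  let _ : ∀ i, Module k (P.complex.X i) := fun i => Module.compHom _ (algebraMap k B)
  have _ : ∀ i, IsScalarTower k B (P.complex.X i) := fun i =>
    IsScalarTower.of_algebraMap_smul fun _ _ => rfl
  let D0 : P.complex.X 0 →ₗ[B] M := (P.π.f 0).hom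
  let D : ∀ i, P.complex.X (i + 1) →ₗ[B] P.complex.X i := fun i => (P.complex.d (i + 1) i).hom
  have hs : Function.Surjective D0 := (ModuleCat.epi_iff_surjective (P.π.f 0)).1 inferInstance
  have ex0 : Function.Exact (D 0) D0 :=
    (ShortComplex.ShortExact.moduleCat_exact_iff_function_exact _).1
      (ShortComplex.exact_of_g_is_cokernel
        (ShortComplex.mk (P.complex.d 1 0) (P.π.f 0) P.complex_d_comp_π_f_zero)
        P.isColimitCokernelCofork)
  have ex : ∀ i, Function.Exact (D (i + 1)) (D i) := fun i =>
    (ShortComplex.ShortExact.moduleCat_exact_iff_function_exact _).1 (P.exact_succ i)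
  have hfin : ∀ i, Module.Finite k (P.complex.X i) := fun i =>
    Module.Finite.trans B (P.complex.X i)
  have hproj : ∀ i, Module.Projective B (P.complex.X i) := fun i =>
    (IsProjective.iff_projective (P.complex.X i)).2 (P.projective i)
  have hlen : ∀ (i c : ℕ), Module.length B (P.complex.X i) ≤ c →
      Module.finrank k (P.complex.X i) ≤ Module.finrank k B * c :=
    fun i c hc => (finrank_le_of_length c _ hc).2
  refine ⟨mkProjRes (k := k) (P := fun i => (P.complex.X i : Type u)) (D0 := D0) (D := D) hfin
    hproj hs ex0 ex, fun i => ⟨⟨LinearEquiv.refl B _⟩, fun c hc => ?_⟩⟩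
  exact hlen i c hc

end length

end Pool.Agent.GSC
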