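import Pool.Agent.Lib_helper54.GSC.B6c

/-! H1: every f.d. module has an essential f.d. injective extension.
H2: essential injective coresolutions. -/

open MulOpposite

universe u

namespace Pool.Agent.Lib_helper21.GSC

open Pool.Agent.Lib_helper54.GSC

section
variable {k B : Type u} [Field k] [Ring B] [Algebra k B]

/-- every f.d. module embeds in a f.d. injective module. -/
theorem exists_injective [Module.Finite k B] (M : Type u) [AddCommGroup M] [Module k M]
    [Module B M] [IsScalarTower k B M] [Module.Finite k M] :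
    ∃ (J : Type u) (_ : AddCommGroup J) (_ : Module k J) (_ : Module B J)
      (_ : IsScalarTower k B J) (_ : Module.Finite k J) (f : M →ₗ[B] J),
      Module.Injective B J ∧ Function.Injective f := by
  let θ : Bᵐᵒᵖ ≃ₐ[k] Bᵐᵒᵖ := AlgEquiv.refl
  have hfin : Module.Finite k Bᵐᵒᵖ :=
    Module.Finite.equiv (MulOpposite.opLinearEquiv k : B ≃ₗ[k] Bᵐᵒᵖ)
  let v := Module.finBasis k (D θ M)
  let p : (Fin (Module.finrank k (D θ M)) → Bᵐᵒᵖ) →ₗ[Bᵐᵒᵖ] D θ M :=
    Fintype.linearCombination Bᵐᵒᵖ v
  have hp : Function.Surjective p := by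
    intro m
    have : m ∈ Submodule.span Bᵐᵒᵖ (Set.range v) := by rw [span_eq_top v]; trivial
    obtain ⟨a, ha⟩ := (Submodule.mem_span_range_iff_exists_fun Bᵐᵒᵖ).mp this
    exact ⟨a, by simpa [p, Fintype.linearCombination_apply] using ha⟩
  have e : M ≃ₗ[B] D (flat θ) (D (flat (flat θ)) M) := doubleDual (flat θ) M
  have hf : flat (flat θ) = θ := by
    ext a; rfl
  rw [hf] at e
  refine ⟨D (flat θ) (Fin (Module.finrank k (D θ M)) → Bᵐᵒᵖ), inferInstance, inferInstance,
    inferInstance, inferInstance, inferInstance, (Dmap (flat θ) p) ∘ₗ e.toLinearMap,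
    D_free_injective (flat θ) _, ?_⟩
  exact (Dmap_injective (flat θ) hp).comp e.injective

/-- retracts of injective modules are injective. -/
theorem injective_of_retract {R : Type u} [Ring R] {J E : Type u} [AddCommGroup J] [Module R J]
    [AddCommGroup E] [Module R E] (hJ : Module.Injective R J) (i : E →ₗ[R] J) (p : J →ₗ[R] E)
    (h : ∀ x, p (i x) = x) : Module.Injective R E := by
  refine ⟨fun X Y _ _ _ _ f hf g => ?_⟩
  obtain ⟨t, ht⟩ := hJ.out f hf (i ∘ₗ g)
  exact ⟨p ∘ₗ t, fun x => by rw [LinearMap.comp_apply, ht, LinearMap.comp_apply, h]⟩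

/-- the essential extensions of `range f` inside `J`. -/
def Ess {R M J : Type u} [Ring R] [AddCommGroup M] [Module R M] [AddCommGroup J] [Module R J]
    (f : M →ₗ[R] J) (E : Submodule R J) : Prop :=
  LinearMap.range f ≤ E ∧ ∀ S : Submodule R J, S ≤ E → S ≠ ⊥ → S ⊓ LinearMap.range f ≠ ⊥

/-- inside an injective Noetherian module every submodule has an injective essential extension
which is a direct summand. -/
theorem exists_summand {R M J : Type u} [Ring R] [AddCommGroup M] [Module R M] [AddCommGroup J]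
    [Module R J] [IsNoetherian R J] (hJ : Module.Injective R J) (f : M →ₗ[R] J) :
    ∃ E : Submodule R J, Ess f E ∧ Module.Injective R E := by
  obtain ⟨E, hE, hEmax⟩ := WellFounded.has_min (r := fun a b : Submodule R J => b < a)
    (wellFounded_gt (α := Submodule R J)) {E | Ess f E} ⟨LinearMap.range f, le_rfl, fun S hS h0 => by
      rwa [inf_eq_left.2 hS]⟩
  obtain ⟨L, hL, hLmax⟩ := WellFounded.has_min (r := fun a b : Submodule R J => b < a)
    (wellFounded_gt (α := Submodule R J)) {L | L ⊓ E = ⊥} ⟨⊥, bot_inf_eq E⟩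
  -- the map `J ⧸ L → J`
  let i : E →ₗ[R] J ⧸ L := L.mkQ ∘ₗ E.subtype
  have hi : Function.Injective i := by
    rw [← LinearMap.ker_eq_bot, LinearMap.ker_eq_bot']
    intro x hx
    have hx1 : (x : J) ∈ L := by
      simpa [i] using hx
    have hx2 : (x : J) ∈ L ⊓ E := ⟨hx1, x.2⟩
    rw [hL, Submodule.mem_bot] at hx2
    exact Subtype.ext hx2
  obtain ⟨g, hg⟩ := hJ.out i hi E.subtype
  have hgE : ∀ x : J, x ∈ E → g (L.mkQ x) = x := fun x hx => hg ⟨x, hx⟩
  -- submodules bigger than `L` meet `E`
  have hmeet : ∀ K : Submodule R (J ⧸ L), K ≠ ⊥ → ∃ e : J, e ∈ E ∧ e ≠ 0 ∧ L.mkQ e ∈ K := by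
    intro K hK
    have hlt : L < K.comap L.mkQ := by
      refine lt_of_le_of_ne ?_ ?_
      · intro x hx
        rw [Submodule.mem_comap]
        have : L.mkQ x = 0 := by simpa using hx
        rw [this]; exact K.zero_mem
      · intro h
        apply hK
        rw [eq_bot_iff]
        intro y hy
        obtain ⟨x, rfl⟩ := L.mkQ_surjective y
        have hx : x ∈ L := by rw [h]; exact hy
        simpa using hx
    have h1 : K.comap L.mkQ ⊓ E ≠ ⊥ := fun h => hLmax _ h hlt
    obtain ⟨e, he, he0⟩ := Submodule.exists_mem_ne_zero_of_ne_bot h1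
    exact ⟨e, he.2, he0, he.1⟩
  have hginj : Function.Injective g := by
    rw [← LinearMap.ker_eq_bot]
    by_contra hK
    obtain ⟨e, heE, he0, heK⟩ := hmeet _ hK
    rw [LinearMap.mem_ker, hgE e heE] at heK
    exact he0 heK
  have hEle : E ≤ LinearMap.range g := fun x hx => ⟨L.mkQ x, hgE x hx⟩
  have hEss : Ess f (LinearMap.range g) := by
    refine ⟨hE.1.trans hEle, fun S hS h0 => ?_⟩
    obtain ⟨s, hs, hs0⟩ := Submodule.exists_mem_ne_zero_of_ne_bot h0
    obtain ⟨y, hy⟩ := hS hs
    have hK : S.comap g ≠ ⊥ := by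
      intro h
      have : y ∈ S.comap g := by rw [Submodule.mem_comap, hy]; exact hs
      rw [h, Submodule.mem_bot] at this
      rw [this, map_zero] at hy
      exact hs0 hy.symm
    obtain ⟨e, heE, he0, heK⟩ := hmeet _ hK
    rw [Submodule.mem_comap, hgE e heE] at heK
    have h1 : S ⊓ E ≠ ⊥ := by
      intro h
      have : e ∈ S ⊓ E := ⟨heK, heE⟩
      rw [h, Submodule.mem_bot] at this
      exact he0 this
    have h2 := hE.2 (S ⊓ E) inf_le_right h1
    intro h3
    apply h2
    rw [eq_bot_iff, ← h3]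
    exact inf_le_inf_right _ inf_le_left
  have hrange : LinearMap.range g = E := by
    by_contra hne
    exact hEmax _ hEss (lt_of_le_of_ne hEle (Ne.symm hne))
  -- the retraction
  let p : J →ₗ[R] E := LinearMap.codRestrict E (g ∘ₗ L.mkQ) (fun x => by
    rw [← hrange]; exact ⟨L.mkQ x, rfl⟩)
  refine ⟨E, hE, injective_of_retract hJ E.subtype p fun x => ?_⟩
  apply Subtype.ext
  exact hgE x x.2

/-- H1: essential f.d. injective extensions. -/
theorem exists_hull [Module.Finite k B] (M : Type u) [AddCommGroup M] [Module k M]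
    [Module B M] [IsScalarTower k B M] [Module.Finite k M] :
    ∃ (J : Type u) (_ : AddCommGroup J) (_ : Module k J) (_ : Module B J)
      (_ : IsScalarTower k B J) (_ : Module.Finite k J) (f : M →ₗ[B] J),
      Module.Injective B J ∧ Function.Injective f ∧
        ∀ S : Submodule B J, S ≠ ⊥ → S ⊓ LinearMap.range f ≠ ⊥ := by
  obtain ⟨J, _, _, _, _, hfin, f, hJ, hf⟩ := exists_injective (k := k) (B := B) M
  have hN : IsNoetherian B J := by
    have : IsNoetherian k J := inferInstance
    exact isNoetherian_of_tower k this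
  obtain ⟨E, hE, hEinj⟩ := exists_summand hJ f
  have hEf : Module.Finite k E :=
    Module.Finite.of_injective (E.subtype.restrictScalars k) E.injective_subtype
  refine ⟨E, inferInstance, inferInstance, inferInstance, inferInstance, hEf,
    f.codRestrict E (fun x => hE.1 ⟨x, rfl⟩), hEinj, ?_, ?_⟩
  · intro x y hxy
    exact hf (congrArg Subtype.val hxy)
  · intro S hS h
    have h1 : S.map E.subtype ≠ ⊥ := by
      intro h0
      apply hS
      rw [eq_bot_iff]
      intro x hx
      have h2 : (x : J) ∈ S.map E.subtype := ⟨x, hx, rfl⟩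
      rw [h0, Submodule.mem_bot] at h2
      exact Subtype.ext h2
    obtain ⟨y, hy, hy0⟩ := Submodule.exists_mem_ne_zero_of_ne_bot
      (hE.2 _ (Submodule.map_subtype_le E S) h1)
    obtain ⟨⟨s, hs, rfl⟩, ⟨x, hx⟩⟩ := hy
    have : s ∈ S ⊓ LinearMap.range (f.codRestrict E (fun x => hE.1 ⟨x, rfl⟩)) :=
      ⟨hs, ⟨x, Subtype.ext hx⟩⟩
    rw [h, Submodule.mem_bot] at this
    rw [this] at hy0
    exact hy0 rfl

end

/-- bundled f.d. modules. -/
structure FDMod (k B : Type u) [Field k] [Ring B] [Algebra k B] where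
  X : Type u
  [grp : AddCommGroup X]
  [modk : Module k X]
  [modB : Module B X]
  [tower : IsScalarTower k B X]
  [fin : Module.Finite k X]

attribute [instance] FDMod.grp FDMod.modk FDMod.modB FDMod.tower FDMod.fin

/-- a bundled essential injective extension. -/
structure Hull {k B : Type u} [Field k] [Ring B] [Algebra k B] (M : FDMod k B) where
  J : FDMod k B
  f : M.X →ₗ[B] J.X
  inj : Module.Injective B J.X
  hf : Function.Injective f
  ess : ∀ S : Submodule B J.X, S ≠ ⊥ → S ⊓ LinearMap.range f ≠ ⊥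

theorem nonempty_hull {k B : Type u} [Field k] [Ring B] [Algebra k B] [Module.Finite k B]
    (M : FDMod k B) : Nonempty (Hull M) := by
  obtain ⟨J, _, _, _, _, _, f, h1, h2, h3⟩ := exists_hull (k := k) (B := B) M.X
  exact ⟨⟨⟨J⟩, f, h1, h2, h3⟩⟩

/-- the chosen hull -/
noncomputable def hull {k B : Type u} [Field k] [Ring B] [Algebra k B] [Module.Finite k B]
    (M : FDMod k B) : Hull M := (nonempty_hull M).some

/-- the cokernel of the hull -/
noncomputable def cosyz {k B : Type u} [Field k] [Ring B] [Algebra k B] [Module.Finite k B]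
    (M : FDMod k B) : FDMod k B where
  X := (hull M).J.X ⧸ LinearMap.range (hull M).f
  tower := inferInstance
  fin := Module.Finite.of_surjective
    ((LinearMap.range (hull M).f).mkQ.restrictScalars k) (Submodule.mkQ_surjective _)

/-- the projection to the cokernel -/
noncomputable def toCosyz {k B : Type u} [Field k] [Ring B] [Algebra k B] [Module.Finite k B]
    (M : FDMod k B) : (hull M).J.X →ₗ[B] (cosyz M).X :=
  (LinearMap.range (hull M).f).mkQ

theorem toCosyz_exact {k B : Type u} [Field k] [Ring B] [Algebra k B] [Module.Finite k B]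
    (M : FDMod k B) : Function.Exact (hull M).f (toCosyz M) :=
  LinearMap.exact_iff.2 (Submodule.ker_mkQ _)

theorem toCosyz_surjective {k B : Type u} [Field k] [Ring B] [Algebra k B] [Module.Finite k B]
    (M : FDMod k B) : Function.Surjective (toCosyz M) :=
  Submodule.mkQ_surjective _

/-- iterated cosyzygies -/
noncomputable def cosyzN {k B : Type u} [Field k] [Ring B] [Algebra k B] [Module.Finite k B]
    (M : FDMod k B) : ℕ → FDMod k B
  | 0 => M
  | i + 1 => cosyz (cosyzN M i)

/-- H2: essential injective coresolutions. -/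
theorem exists_coresolution (k B : Type u) [Field k] [Ring B] [Algebra k B] [Module.Finite k B]
    (M : Type u) [AddCommGroup M] [Module k M] [Module B M] [IsScalarTower k B M]
    [Module.Finite k M] :
    ∃ (X J : ℕ → Type u) (_ : ∀ i, AddCommGroup (X i)) (_ : ∀ i, AddCommGroup (J i))
      (_ : ∀ i, Module k (X i)) (_ : ∀ i, Module k (J i)) (_ : ∀ i, Module B (X i))
      (_ : ∀ i, Module B (J i)) (_ : ∀ i, IsScalarTower k B (X i))
      (_ : ∀ i, IsScalarTower k B (J i)) (_ : ∀ i, Module.Finite k (J i))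
      (f : ∀ i, X i →ₗ[B] J i) (g : ∀ i, J i →ₗ[B] X (i + 1)),
      (∀ i, Function.Injective (f i)) ∧ (∀ i, Function.Exact (f i) (g i)) ∧
      (∀ i, Function.Surjective (g i)) ∧ (∀ i, Module.Injective B (J i)) ∧
      (∀ i, ∀ S : Submodule B (J i), S ≠ ⊥ → S ⊓ LinearMap.range (f i) ≠ ⊥) ∧
      Nonempty (X 0 ≃ₗ[B] M) := by
  let C : ℕ → FDMod k B := cosyzN (⟨M⟩ : FDMod k B)
  refine ⟨fun i => (C i).X, fun i => (hull (C i)).J.X, fun i => inferInstance,
    fun i => inferInstance, fun i => inferInstance, fun i => inferInstance,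
    fun i => inferInstance, fun i => inferInstance, fun i => inferInstance,
    fun i => inferInstance, fun i => inferInstance, fun i => (hull (C i)).f,
    fun i => toCosyz (C i), fun i => (hull (C i)).hf, fun i => toCosyz_exact (C i),
    fun i => toCosyz_surjective (C i), fun i => (hull (C i)).inj, fun i => (hull (C i)).ess,
    ⟨LinearEquiv.refl B M⟩⟩

end Pool.Agent.Lib_helper21.GSC
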