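import Pool.Agent.Lib_helper30.GSC.Lift

set_option autoImplicit false

/-! M3: the uniform bound for `InjLE` over all fields. -/

namespace Pool.Agent.GSC

open Matrix Module

universe u v

section

variable {R : Type v} [CommRing R] {d : ℕ}

/-- the bound on the closed set `V(I)`. -/
def BoundOn (m : Type) [Fintype m] [DecidableEq m] (c : Fin d → Fin d → Fin d → R)
    (ρ : Fin d → Matrix m m R) (I : Ideal R) : Prop :=
  ∃ N : ℕ, ∀ (k : Type u) [Field k] (φ : R →+* k), I ≤ RingHom.ker φ →
    (∃ n, InjLE (fun i j l => φ (c i j l)) n m (fun l => (ρ l).map φ)) →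
      ∃ n ≤ N, InjLE (fun i j l => φ (c i j l)) n m (fun l => (ρ l).map φ)

/-- over a domain: the solution over the fraction field lives on an open set. -/
theorem open_of_generic {D : Type v} [CommRing D] [IsDomain D] (m : Type) [Fintype m]
    [DecidableEq m] (c : Fin d → Fin d → Fin d → D) (ρ : Fin d → Matrix m m D) (n : ℕ)
    (h : InjLE (fun i j l => algebraMap D (FractionRing D) (c i j l)) n m
      (fun l => (ρ l).map (algebraMap D (FractionRing D)))) :
    ∃ f : D, f ≠ 0 ∧ ∀ (k : Type u) [Field k] (φ : D →+* k), φ f ≠ 0 →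
      InjLE (fun i j l => φ (c i j l)) n m (fun l => (ρ l).map φ) := by
  classical
  obtain ⟨s, hs⟩ := injLE_descend n m _ _ h
  obtain ⟨b, hb⟩ := IsLocalization.exist_integer_multiples_of_finset (nonZeroDivisors D) s
  refine ⟨b, nonZeroDivisors.ne_zero b.2, ?_⟩
  intro k _ φ hφ
  have hf0 : (b : D) ≠ 0 := nonZeroDivisors.ne_zero b.2
  have hfK : algebraMap D (FractionRing D) (b : D) ≠ 0 := by
    intro h0
    exact hf0 ((FaithfulSMul.algebraMap_injective D (FractionRing D)) (by rw [h0, map_zero]))
  let L := Localization.Away (b : D)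
  let j : L →+* FractionRing D := IsLocalization.Away.lift (S := L) (b : D)
    (g := algebraMap D (FractionRing D)) (IsUnit.mk0 _ hfK)
  let ψ : L →+* k := IsLocalization.Away.lift (S := L) (b : D) (g := φ) (IsUnit.mk0 _ hφ)
  have hj : ∀ x, j (algebraMap D L x) = algebraMap D (FractionRing D) x := fun x =>
    IsLocalization.Away.lift_eq (b : D) _ x
  have hψ : ∀ x, ψ (algebraMap D L x) = φ x := fun x =>
    IsLocalization.Away.lift_eq (b : D) _ x
  have hinj : Function.Injective j := by
    refine (IsLocalization.lift_injective_iff (M := Submonoid.powers (b : D)) (S := L) _).2 ?_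
    intro x y
    constructor
    · intro hxy
      rw [← hj x, ← hj y, hxy]
    · intro hxy
      rw [FaithfulSMul.algebraMap_injective D (FractionRing D) hxy]
  let E : L ≃+* j.range := RingEquiv.ofBijective j.rangeRestrict
    ⟨fun x y hxy => hinj (congrArg Subtype.val hxy), j.rangeRestrict_surjective⟩
  have hsub : (↑s : Set (FractionRing D)) ⊆ (j.range : Set (FractionRing D)) := by
    intro x hx
    obtain ⟨y, hy⟩ := hb x hx
    have hu : IsUnit (algebraMap D L (b : D)) := IsLocalization.Away.algebraMap_isUnit (b : D)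
    obtain ⟨w, hw⟩ := hu
    refine ⟨algebraMap D L y * ((w⁻¹ : Lˣ) : L), ?_⟩
    have h1 : j ((w : L)) * x = j (algebraMap D L y) := by
      rw [hw, hj, hj, hy, Algebra.smul_def]
    have h2 : j ((w⁻¹ : Lˣ) : L) * j (w : L) = 1 := by
      rw [← map_mul, Units.inv_mul, map_one]
    rw [map_mul, ← h1, mul_comm, ← mul_assoc, h2, one_mul]
  have key := hs j.range hsub (fun i i' l => E (algebraMap D L (c i i' l)))
    (fun l => (ρ l).map fun x => E (algebraMap D L x))
    (fun i i' l => hj _) (fun i x y => hj _)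
  have key2 := injLE_map (ψ.comp (E.symm : j.range →+* L)) n m _ _ key
  have e1 : (fun i i' l => (ψ.comp (E.symm : j.range →+* L)) (E (algebraMap D L (c i i' l)))) =
      fun i i' l => φ (c i i' l) := by
    funext i i' l
    simp [hψ]
  have e2 : (fun l => ((ρ l).map fun x => E (algebraMap D L x)).map
      (ψ.comp (E.symm : j.range →+* L))) = fun l => (ρ l).map φ := by
    funext l
    ext x y
    simp [hψ]
  rw [e1, e2] at key2
  exact key2

theorem boundOn [IsNoetherianRing R] (m : Type) [Fintype m] [DecidableEq m]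
    (e : Fin d → Fin d → R) (c : Fin d → Fin d → Fin d → R)
    (ρ : Fin d → Matrix m m R) (hA : IsAlg e c) (hρ : IsRep e c ρ) (I : Ideal R) :
    BoundOn.{u} m c ρ I := by
  classical
  induction I using WellFoundedGT.induction with
  | ind I ih =>
  by_cases hI : I.IsPrime
  · let D := R ⧸ I
    have hdom : IsDomain D := Ideal.Quotient.isDomain I
    let q : R →+* D := Ideal.Quotient.mk I
    have hAD := hA.map q
    have hρD := hρ.map q
    by_cases hK : ∃ n, InjLE (fun i j l => algebraMap D (FractionRing D) (q (c i j l))) n m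
      (fun l => ((ρ l).map q).map (algebraMap D (FractionRing D)))
    · obtain ⟨n, hn⟩ := hK
      obtain ⟨f, hf0, hf⟩ := open_of_generic.{u} m _ _ n hn
      obtain ⟨g, rfl⟩ := Ideal.Quotient.mk_surjective f
      have hg : g ∉ I := fun h => hf0 (Ideal.Quotient.eq_zero_iff_mem.2 h)
      have hlt : I < I ⊔ Ideal.span {g} := by
        refine lt_of_le_of_ne le_sup_left fun h => hg ?_
        rw [h]
        exact Ideal.mem_sup_right (Ideal.mem_span_singleton_self g)
      obtain ⟨N, hN⟩ := ih _ hlt
      refine ⟨max n N, ?_⟩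
      intro k _ φ hφ hex
      by_cases h0 : φ g = 0
      · have hle : I ⊔ Ideal.span {g} ≤ RingHom.ker φ := by
          refine sup_le hφ ?_
          rw [Ideal.span_singleton_le_iff_mem]
          exact h0
        obtain ⟨n', hn', h'⟩ := hN k φ hle hex
        exact ⟨n', le_trans hn' (le_max_right _ _), h'⟩
      · have h1 := hf k (Ideal.Quotient.lift I φ hφ) (by
          rwa [Ideal.Quotient.lift_mk])
        exact ⟨n, le_max_left _ _, h1⟩
    · refine ⟨0, ?_⟩
      intro k _ φ hφ ⟨n, hn⟩
      exfalso
      apply hK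
      refine ⟨n, ?_⟩
      exact injLE_lift (R := D) (k := k) (K := FractionRing D) (Ideal.Quotient.lift I φ hφ)
        (algebraMap D (FractionRing D)) (FaithfulSMul.algebraMap_injective D (FractionRing D))
        n m _ _ _ hAD hρD hn
  · by_cases htop : I = ⊤
    · refine ⟨0, ?_⟩
      intro k _ φ hφ _
      exfalso
      rw [htop, top_le_iff] at hφ
      exact RingHom.ker_ne_top φ hφ
    · obtain ⟨a, b, hab, ha, hb⟩ : ∃ a b, a * b ∈ I ∧ a ∉ I ∧ b ∉ I := by
        by_contra hcon
        push Not at hcon
        exact hI ⟨htop, fun {x y} hxy => by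
          by_cases hx : x ∈ I
          · exact Or.inl hx
          · exact Or.inr (hcon x y hxy hx)⟩
      have hlt : ∀ g, g ∉ I → I < I ⊔ Ideal.span {g} := by
        intro g hg
        refine lt_of_le_of_ne le_sup_left fun h => hg ?_
        rw [h]
        exact Ideal.mem_sup_right (Ideal.mem_span_singleton_self g)
      obtain ⟨N1, hN1⟩ := ih _ (hlt a ha)
      obtain ⟨N2, hN2⟩ := ih _ (hlt b hb)
      refine ⟨max N1 N2, ?_⟩
      intro k _ φ hφ hex
      have hab0 : φ a * φ b = 0 := by
        rw [← map_mul]; exact hφ hab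
      rcases mul_eq_zero.1 hab0 with h0 | h0
      · have hle : I ⊔ Ideal.span {a} ≤ RingHom.ker φ := by
          refine sup_le hφ ?_
          rw [Ideal.span_singleton_le_iff_mem]
          exact h0
        obtain ⟨n', hn', h'⟩ := hN1 k φ hle hex
        exact ⟨n', le_trans hn' (le_max_left _ _), h'⟩
      · have hle : I ⊔ Ideal.span {b} ≤ RingHom.ker φ := by
          refine sup_le hφ ?_
          rw [Ideal.span_singleton_le_iff_mem]
          exact h0
        obtain ⟨n', hn', h'⟩ := hN2 k φ hle hex
        exact ⟨n', le_trans hn' (le_max_right _ _), h'⟩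

end

section universal

variable (d : ℕ) (m : Type)

/-- the variables: entries of `e`, `c`, `ρ`. -/
abbrev MVar : Type := (Fin d × Fin d) ⊕ (Fin d × Fin d × Fin d) ⊕ (Fin d × m × m)

/-- the generic `e` -/
noncomputable def gE (i j : Fin d) : MvPolynomial (MVar d m) ℤ := MvPolynomial.X (Sum.inl (i, j))

/-- the generic `c` -/
noncomputable def gC (i j l : Fin d) : MvPolynomial (MVar d m) ℤ :=
  MvPolynomial.X (Sum.inr (Sum.inl (i, j, l)))

/-- the generic `ρ` -/
noncomputable def gR (i : Fin d) : Matrix m m (MvPolynomial (MVar d m) ℤ) :=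
  Matrix.of fun a b => MvPolynomial.X (Sum.inr (Sum.inr (i, a, b)))

variable [Fintype m] [DecidableEq m]

/-- the ideal of all equations satisfied by the points. -/
noncomputable def univIdeal : Ideal (MvPolynomial (MVar d m) ℤ) :=
  sInf {I | ∃ (k : Type u) (_ : Field k) (φ : MvPolynomial (MVar d m) ℤ →+* k),
    IsAlg (fun i j => φ (gE d m i j)) (fun i j l => φ (gC d m i j l)) ∧
    IsRep (fun i j => φ (gE d m i j)) (fun i j l => φ (gC d m i j l))
      (fun l => (gR d m l).map φ) ∧ I = RingHom.ker φ}

theorem mem_univIdeal_of {x y : MvPolynomial (MVar d m) ℤ}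
    (h : ∀ (k : Type u) (_ : Field k) (φ : MvPolynomial (MVar d m) ℤ →+* k),
      IsAlg (fun i j => φ (gE d m i j)) (fun i j l => φ (gC d m i j l)) →
      IsRep (fun i j => φ (gE d m i j)) (fun i j l => φ (gC d m i j l))
        (fun l => (gR d m l).map φ) → φ x = φ y) :
    Ideal.Quotient.mk (univIdeal.{u} d m) x = Ideal.Quotient.mk (univIdeal.{u} d m) y := by
  rw [Ideal.Quotient.eq, univIdeal, Submodule.mem_sInf]
  rintro I ⟨k, hk, φ, h1, h2, rfl⟩
  rw [RingHom.mem_ker, map_sub, sub_eq_zero]
  exact h k hk φ h1 h2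

theorem univ_isAlg : IsAlg (fun i j => Ideal.Quotient.mk (univIdeal.{u} d m) (gE d m i j))
    (fun i j l => Ideal.Quotient.mk (univIdeal.{u} d m) (gC d m i j l)) := by
  constructor
  · intro i j l
    simp only [← map_mul, ← map_sum]
    apply mem_univIdeal_of
    intro k _ φ h1 _
    have := h1.unit i j l
    simpa only [map_sum, map_mul] using this
  · intro i j l t
    have e : ∀ p : Prop, ∀ _ : Decidable p, (if p then (1 : MvPolynomial (MVar d m) ℤ ⧸
        univIdeal.{u} d m) else 0) = Ideal.Quotient.mk (univIdeal.{u} d m) (if p then 1 else 0) := by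
      intro p _
      split_ifs <;> simp
    simp only [e, ← map_mul, ← map_sum, ← map_add]
    apply mem_univIdeal_of
    intro k _ φ h1 _
    have := h1.assoc i j l t
    simpa only [map_sum, map_mul, map_add, apply_ite φ, map_one, map_zero] using this

theorem univ_isRep : IsRep (fun i j => Ideal.Quotient.mk (univIdeal.{u} d m) (gE d m i j))
    (fun i j l => Ideal.Quotient.mk (univIdeal.{u} d m) (gC d m i j l))
    (fun l => (gR d m l).map (Ideal.Quotient.mk (univIdeal.{u} d m))) := by
  intro i j
  ext a b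
  have e : (1 : Matrix m m (MvPolynomial (MVar d m) ℤ ⧸ univIdeal.{u} d m)) a b =
      Ideal.Quotient.mk (univIdeal.{u} d m) (if a = b then 1 else 0) := by
    rw [Matrix.one_apply]
    split_ifs <;> simp
  simp only [Matrix.mul_apply, Matrix.add_apply, Matrix.sum_apply, Matrix.smul_apply,
    Matrix.map_apply, smul_eq_mul, e, ← map_mul, ← map_sum, ← map_add]
  apply mem_univIdeal_of
  intro k _ φ _ h2
  have := congrFun (congrFun (h2 i j) a) b
  simpa only [Matrix.mul_apply, Matrix.add_apply, Matrix.sum_apply, Matrix.smul_apply,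
    Matrix.map_apply, smul_eq_mul, Matrix.one_apply, map_sum, map_mul, map_add, apply_ite φ,
    map_one, map_zero] using this

end universal

/-- M3: the uniform bound. -/
theorem uniform_InjLE (d : ℕ) (m : Type) [Fintype m] [DecidableEq m] :
    ∃ N : ℕ, ∀ (k : Type u) [Field k] (e : Fin d → Fin d → k) (c : Fin d → Fin d → Fin d → k)
      (ρ : Fin d → Matrix m m k), IsAlg e c → IsRep e c ρ → (∃ n, InjLE c n m ρ) →
        ∃ n ≤ N, InjLE c n m ρ := by
  obtain ⟨N, hN⟩ := boundOn.{u} m _ _ _ (univ_isAlg.{u} d m) (univ_isRep.{u} d m) ⊥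
  refine ⟨N, ?_⟩
  intro k _ e c ρ hA hρ hex
  let φ : MvPolynomial (MVar d m) ℤ →+* k := MvPolynomial.eval₂Hom (Int.castRingHom k)
    (Sum.elim (fun p => e p.1 p.2) (Sum.elim (fun p => c p.1 p.2.1 p.2.2)
      (fun p => ρ p.1 p.2.1 p.2.2)))
  have hE : (fun i j => φ (gE d m i j)) = e := by
    funext i j
    simp [φ, gE]
  have hC : (fun i j l => φ (gC d m i j l)) = c := by
    funext i j l
    simp [φ, gC]
  have hR : (fun l => (gR d m l).map φ) = ρ := by
    funext l
    ext a b
    simp [φ, gR]
  have hle : univIdeal.{u} d m ≤ RingHom.ker φ := by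
    refine sInf_le ⟨k, inferInstance, φ, ?_, ?_, rfl⟩
    · rw [hE, hC]; exact hA
    · rw [hE, hC, hR]; exact hρ
  have h1 := hN k (Ideal.Quotient.lift (univIdeal.{u} d m) φ hle) bot_le
  have e1 : (fun i j l => (Ideal.Quotient.lift (univIdeal.{u} d m) φ hle)
      (Ideal.Quotient.mk (univIdeal.{u} d m) (gC d m i j l))) = c := by
    rw [← hC]
    rfl
  have e2 : (fun l => ((gR d m l).map (Ideal.Quotient.mk (univIdeal.{u} d m))).map
      (Ideal.Quotient.lift (univIdeal.{u} d m) φ hle)) = ρ := by
    rw [← hR]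
    funext l
    ext a b
    rfl
  rw [e1, e2] at h1
  exact h1 hex

end Pool.Agent.GSC
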