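import Mathlib

/-! Finite residue fields of finitely generated domains. -/

namespace Pool.Agent.GSC

theorem isJacobsonRing_int : IsJacobsonRing ℤ := by
  rw [isJacobsonRing_iff_prime_eq]
  intro P hP
  by_cases h0 : P = ⊥
  · subst h0
    refine le_antisymm ?_ Ideal.le_jacobson
    intro x hx
    by_contra hx0
    have hx0' : x ≠ 0 := fun h => hx0 (by rw [h]; exact Ideal.zero_mem _)
    obtain ⟨p, hp, hpp⟩ := Nat.exists_infinite_primes (x.natAbs + 1)
    have hmax : (Ideal.span {(p : ℤ)}).IsMaximal := by
      have hpz : Prime (p : ℤ) := Nat.prime_iff_prime_int.1 hpp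
      have : (Ideal.span {(p : ℤ)}).IsPrime := (Ideal.span_singleton_prime hpz.ne_zero).2 hpz
      exact this.isMaximal (by
        rw [Ne, Ideal.span_singleton_eq_bot]; exact hpz.ne_zero)
    have hx1 : x ∈ Ideal.span {(p : ℤ)} := by
      rw [Ideal.jacobson, Submodule.mem_sInf] at hx
      exact hx _ ⟨bot_le, hmax⟩
    rw [Ideal.mem_span_singleton] at hx1
    have h2 := Int.natAbs_dvd_natAbs.2 hx1
    rw [Int.natAbs_natCast] at h2
    have h3 := Nat.le_of_dvd (Int.natAbs_pos.2 hx0') h2
    omega
  · have : P.IsMaximal := hP.isMaximal h0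
    exact Ideal.jacobson_eq_self_of_isMaximal

/-- a field finitely generated over `ℤ` is finite. -/
theorem finite_of_fg (F : Type*) [Field F] (h : (Int.castRingHom F).FiniteType) :
    Finite F := by
  have h' : (algebraMap ℤ F).FiniteType := h
  have : Algebra.FiniteType ℤ F := RingHom.finiteType_algebraMap.1 h'
  have := isJacobsonRing_int
  have h1 : Module.Finite ℤ F := finite_of_finite_type_of_isJacobsonRing ℤ F
  have h2 : Algebra.IsIntegral ℤ F := Algebra.IsIntegral.of_finite ℤ F
  have h3 : ¬ Function.Injective (algebraMap ℤ F) := by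
    intro hinj
    have : IsField ℤ := (Algebra.IsIntegral.isField_iff_isField hinj).2 (Field.toIsField F)
    exact Int.not_isField this
  refine Module.finite_of_fg_torsion F ?_
  have h4 : ∃ n : ℤ, n ≠ 0 ∧ (n : F) = 0 := by
    by_contra hcon
    push Not at hcon
    apply h3
    rw [injective_iff_map_eq_zero]
    intro a ha
    by_contra h
    exact hcon a h (by simpa using ha)
  obtain ⟨n, hn, hn0⟩ := h4
  intro x
  refine ⟨⟨n, mem_nonZeroDivisors_of_ne_zero hn⟩, ?_⟩
  rw [Submonoid.mk_smul, zsmul_eq_mul, hn0, zero_mul]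

/-- in a finitely generated domain over `ℤ`, every nonzero `f` survives in a finite field. -/
theorem exists_finite_field (D : Type) [CommRing D] [IsDomain D] [Algebra.FiniteType ℤ D] (f : D)
    (hf : f ≠ 0) : ∃ (F : Type) (_ : Field F) (_ : Finite F) (φ : D →+* F), φ f ≠ 0 := by
  let L := Localization.Away f
  have h1 : Algebra.FiniteType D L :=
    IsLocalization.finiteType_of_monoid_fg (Submonoid.powers f) L
  have hL : Algebra.FiniteType ℤ L := Algebra.FiniteType.trans ‹_› h1
  have hnt : Nontrivial L := by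
    have : IsDomain L := IsLocalization.isDomain_localization (M := Submonoid.powers f)
      (powers_le_nonZeroDivisors_of_noZeroDivisors hf)
    infer_instance
  obtain ⟨M, hM⟩ := Ideal.exists_maximal L
  let _ : Field (L ⧸ M) := Ideal.Quotient.field M
  have hF1 : (algebraMap ℤ L).FiniteType := RingHom.finiteType_algebraMap.2 hL
  have hF2 : ((Ideal.Quotient.mk M).comp (algebraMap ℤ L)).FiniteType :=
    hF1.comp_surjective Ideal.Quotient.mk_surjective
  have hF3 : (Ideal.Quotient.mk M).comp (algebraMap ℤ L) = Int.castRingHom (L ⧸ M) :=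
    RingHom.ext_int _ _
  rw [hF3] at hF2
  refine ⟨L ⧸ M, inferInstance, finite_of_fg _ hF2, (Ideal.Quotient.mk M).comp (algebraMap D L), ?_⟩
  have hu : IsUnit (algebraMap D L f) := IsLocalization.Away.algebraMap_isUnit f
  exact (hu.map (Ideal.Quotient.mk M)).ne_zero

end Pool.Agent.GSC
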