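import Pool.Agent.Lib_helper21.GSC.M3
import Pool.Agent.Lib_helper21.GSC.M4a

set_option autoImplicit false

/-! M4: from an arbitrary field to a finite field. -/

namespace Pool.Agent.GSC

open Matrix Module

universe u

/-- the finite type subring generated by finitely many elements, as a ring in `Type`. -/
theorem exists_model {K : Type u} [Field K] {V : Type} [Finite V] (x : V → K) :
    ∃ (D : Type) (_ : CommRing D) (_ : IsDomain D) (_ : Algebra.FiniteType ℤ D) (ι : D →+* K)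
      (y : V → D), Function.Injective ι ∧ ∀ v, ι (y v) = x v := by
  let φ : MvPolynomial V ℤ →+* K := MvPolynomial.eval₂Hom (Int.castRingHom K) x
  have hp : (RingHom.ker φ).IsPrime := RingHom.ker_isPrime φ
  have hdom : IsDomain (MvPolynomial V ℤ ⧸ RingHom.ker φ) := Ideal.Quotient.isDomain _
  have hF1 : (algebraMap ℤ (MvPolynomial V ℤ)).FiniteType :=
    RingHom.finiteType_algebraMap.2 inferInstance
  have hF2 : ((Ideal.Quotient.mk (RingHom.ker φ)).comp
      (algebraMap ℤ (MvPolynomial V ℤ))).FiniteType :=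
    hF1.comp_surjective Ideal.Quotient.mk_surjective
  have hF3 : (Ideal.Quotient.mk (RingHom.ker φ)).comp (algebraMap ℤ (MvPolynomial V ℤ)) =
      Int.castRingHom (MvPolynomial V ℤ ⧸ RingHom.ker φ) := RingHom.ext_int _ _
  rw [hF3] at hF2
  refine ⟨MvPolynomial V ℤ ⧸ RingHom.ker φ, inferInstance, hdom, ?_, φ.kerLift,
    fun v => Ideal.Quotient.mk _ (MvPolynomial.X v), RingHom.kerLift_injective φ, fun v => ?_⟩
  · exact RingHom.finiteType_algebraMap.1 hF2
  · rw [RingHom.kerLift_mk]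
    simp [φ]

/-- relations descend along an injective ring hom. -/
theorem IsAlg.of_injective {S T : Type*} [CommRing S] [CommRing T] {d : ℕ} (ι : S →+* T)
    (hι : Function.Injective ι) {e : Fin d → Fin d → S} {c : Fin d → Fin d → Fin d → S}
    (h : IsAlg (fun i j => ι (e i j)) (fun i j l => ι (c i j l))) : IsAlg e c := by
  constructor
  · intro i j l
    apply hι
    have := h.unit i j l
    simpa only [map_sum, map_mul] using this
  · intro i j l t
    apply hι
    have := h.assoc i j l t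
    simpa only [map_sum, map_mul, map_add, apply_ite ι, map_one, map_zero] using this

theorem IsRep.of_injective {S T : Type*} [CommRing S] [CommRing T] {d : ℕ} {m : Type*}
    [Fintype m] [DecidableEq m] (ι : S →+* T) (hι : Function.Injective ι)
    {e : Fin d → Fin d → S} {c : Fin d → Fin d → Fin d → S} {ρ : Fin d → Matrix m m S}
    (h : IsRep (fun i j => ι (e i j)) (fun i j l => ι (c i j l)) (fun l => (ρ l).map ι)) :
    IsRep e c ρ := by
  intro i j
  ext a b
  apply hι
  have := congrFun (congrFun (h i j) a) b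
  simpa only [Matrix.mul_apply, Matrix.add_apply, Matrix.sum_apply, Matrix.smul_apply,
    Matrix.map_apply, smul_eq_mul, Matrix.one_apply, map_sum, map_mul, map_add, apply_ite ι,
    map_one, map_zero] using this

/-- M4: two representations over an arbitrary field `K`, the first of finite relative injective
dimension, the second not: the same over a finite field `F`, by reduction of a finitely generated
domain `D` inside `K`; a prescribed nonzero natural number stays nonzero, and a positive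
characteristic is kept. -/
theorem finite_field_reduction {K : Type u} [Field K] {d : ℕ} {m₁ m₂ : Type} [Fintype m₁]
    [DecidableEq m₁] [Fintype m₂] [DecidableEq m₂]
    {e : Fin d → Fin d → K} {c : Fin d → Fin d → Fin d → K} {ρ : Fin d → Matrix m₁ m₁ K}
    {e₂ : Fin d → Fin d → K} {c₂ : Fin d → Fin d → Fin d → K} {ρ₂ : Fin d → Matrix m₂ m₂ K}
    (hA : IsAlg e c) (hρ : IsRep e c ρ) (hA₂ : IsAlg e₂ c₂) (hρ₂ : IsRep e₂ c₂ ρ₂)
    {n : ℕ} (h : InjLE c n m₁ ρ) (h₂ : ∀ n', ¬ InjLE c₂ n' m₂ ρ₂)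
    {q : ℕ} (hq : (q : K) ≠ 0) :
    ∃ (D : Type) (_ : CommRing D) (_ : IsDomain D) (ι : D →+* K) (F : Type) (_ : Field F)
      (_ : Finite F) (φ : D →+* F)
      (e' : Fin d → Fin d → D) (c' : Fin d → Fin d → Fin d → D) (ρ' : Fin d → Matrix m₁ m₁ D)
      (e₂' : Fin d → Fin d → D) (c₂' : Fin d → Fin d → Fin d → D) (ρ₂' : Fin d → Matrix m₂ m₂ D),
      Function.Injective ι ∧
      (∀ i j, ι (e' i j) = e i j) ∧ (∀ i j l, ι (c' i j l) = c i j l) ∧
      (∀ l a b, ι (ρ' l a b) = ρ l a b) ∧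
      (∀ i j, ι (e₂' i j) = e₂ i j) ∧ (∀ i j l, ι (c₂' i j l) = c₂ i j l) ∧
      (∀ l a b, ι (ρ₂' l a b) = ρ₂ l a b) ∧
      IsAlg e' c' ∧ IsRep e' c' ρ' ∧ IsAlg e₂' c₂' ∧ IsRep e₂' c₂' ρ₂' ∧
      InjLE (fun i j l => φ (c' i j l)) n m₁ (fun l => (ρ' l).map φ) ∧
      (∀ n', ¬ InjLE (fun i j l => φ (c₂' i j l)) n' m₂ (fun l => (ρ₂' l).map φ)) ∧
      (q : F) ≠ 0 ∧ ∀ p : ℕ, p.Prime → CharP K p → CharP F p := by
  let V := ((Fin d × Fin d) ⊕ (Fin d × Fin d × Fin d) ⊕ (Fin d × m₁ × m₁)) ⊕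
    ((Fin d × Fin d) ⊕ (Fin d × Fin d × Fin d) ⊕ (Fin d × m₂ × m₂))
  obtain ⟨D, _, hD, hDf, ι, y, hι, hy⟩ := exists_model (K := K) (V := V)
    (Sum.elim (Sum.elim (fun p => e p.1 p.2) (Sum.elim (fun p => c p.1 p.2.1 p.2.2)
      (fun p => ρ p.1 p.2.1 p.2.2)))
      (Sum.elim (fun p => e₂ p.1 p.2) (Sum.elim (fun p => c₂ p.1 p.2.1 p.2.2)
      (fun p => ρ₂ p.1 p.2.1 p.2.2))))
  let e' : Fin d → Fin d → D := fun i j => y (Sum.inl (Sum.inl (i, j)))
  let c' : Fin d → Fin d → Fin d → D := fun i j l => y (Sum.inl (Sum.inr (Sum.inl (i, j, l))))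
  let ρ' : Fin d → Matrix m₁ m₁ D := fun l => Matrix.of fun a b =>
    y (Sum.inl (Sum.inr (Sum.inr (l, a, b))))
  let e₂' : Fin d → Fin d → D := fun i j => y (Sum.inr (Sum.inl (i, j)))
  let c₂' : Fin d → Fin d → Fin d → D := fun i j l => y (Sum.inr (Sum.inr (Sum.inl (i, j, l))))
  let ρ₂' : Fin d → Matrix m₂ m₂ D := fun l => Matrix.of fun a b =>
    y (Sum.inr (Sum.inr (Sum.inr (l, a, b))))
  have he : ∀ i j, ι (e' i j) = e i j := fun i j => hy _
  have hc : ∀ i j l, ι (c' i j l) = c i j l := fun i j l => hy _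
  have hρ' : ∀ l a b, ι (ρ' l a b) = ρ l a b := fun l a b => hy _
  have he₂ : ∀ i j, ι (e₂' i j) = e₂ i j := fun i j => hy _
  have hc₂ : ∀ i j l, ι (c₂' i j l) = c₂ i j l := fun i j l => hy _
  have hρ₂' : ∀ l a b, ι (ρ₂' l a b) = ρ₂ l a b := fun l a b => hy _
  have Ee : (fun i j => ι (e' i j)) = e := funext fun i => funext fun j => he i j
  have Ec : (fun i j l => ι (c' i j l)) = c :=
    funext fun i => funext fun j => funext fun l => hc i j l
  have Eρ : (fun l => (ρ' l).map ι) = ρ := by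
    funext l; ext a b; exact hρ' l a b
  have Ee₂ : (fun i j => ι (e₂' i j)) = e₂ := funext fun i => funext fun j => he₂ i j
  have Ec₂ : (fun i j l => ι (c₂' i j l)) = c₂ :=
    funext fun i => funext fun j => funext fun l => hc₂ i j l
  have Eρ₂ : (fun l => (ρ₂' l).map ι) = ρ₂ := by
    funext l; ext a b; exact hρ₂' l a b
  have hA' : IsAlg e' c' := IsAlg.of_injective ι hι (by rw [Ee, Ec]; exact hA)
  have hR' : IsRep e' c' ρ' := IsRep.of_injective ι hι (by rw [Ee, Ec, Eρ]; exact hρ)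
  have hA₂' : IsAlg e₂' c₂' := IsAlg.of_injective ι hι (by rw [Ee₂, Ec₂]; exact hA₂)
  have hR₂' : IsRep e₂' c₂' ρ₂' := IsRep.of_injective ι hι (by rw [Ee₂, Ec₂, Eρ₂]; exact hρ₂)
  -- over the fraction field of `D`
  have hK : InjLE (fun i j l => ι (c' i j l)) n m₁ (fun l => (ρ' l).map ι) := by
    rw [Ec, Eρ]; exact h
  have hFr := injLE_lift ι (algebraMap D (FractionRing D))
    (FaithfulSMul.algebraMap_injective D (FractionRing D)) n m₁ e' c' ρ' hA' hR' hK
  obtain ⟨f, hf0, hf⟩ := open_of_generic.{0} m₁ c' ρ' n hFr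
  have hqD : ((q : ℕ) : D) ≠ 0 := by
    intro h0
    apply hq
    rw [← map_natCast ι, h0, map_zero]
  obtain ⟨F, _, hF, φ, hφ⟩ := exists_finite_field D (f * (q : D)) (mul_ne_zero hf0 hqD)
  rw [map_mul] at hφ
  refine ⟨D, inferInstance, hD, ι, F, inferInstance, hF, φ, e', c', ρ', e₂', c₂', ρ₂', hι, he, hc,
    hρ', he₂, hc₂, hρ₂', hA', hR', hA₂', hR₂', hf F φ (left_ne_zero_of_mul hφ), ?_, ?_, ?_⟩
  · intro n' hn'
    have := injLE_lift φ ι hι n' m₂ e₂' c₂' ρ₂' hA₂' hR₂' hn'
    rw [Ec₂, Eρ₂] at this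
    exact h₂ n' this
  · have := right_ne_zero_of_mul hφ
    rwa [map_natCast] at this
  · intro p hp hcp
    have h0 : (p : D) = 0 := by
      apply hι
      rw [map_natCast, map_zero]
      exact CharP.cast_eq_zero K p
    have h1 : (p : F) = 0 := by
      rw [← map_natCast φ, h0, map_zero]
    exact (CharP.charP_iff_prime_eq_zero hp).2 h1

end Pool.Agent.GSC
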